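import Mathlib

/-!
# Lower bounds for the length of connected compact sets by laminar calibrations

`Tree z S L`: there is a finite rooted tree with root `z`, set of nodes `S` and total length `L`.
-/

set_option autoImplicit false

open Set MeasureTheory
open scoped ENNReal NNReal RealInnerProductSpace

namespace Pool.Agent.T2H59.Steiner

/-- Finite rooted trees with root `z`: the set of (positions of) nodes and the total length. -/
inductive Tree {E : Type*} [MetricSpace E] (z : E) : Set E → ℝ → Prop
  | root : Tree z {z} 0
  | add {S : Set E} {L : ℝ} {p : E} (h : Tree z S L) (hp : p ∈ S) (y : E) :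
      Tree z (insert y S) (L + dist p y)

/-- Laminar families of subsets of `ι`. -/
def Laminar {ι : Type*} (F : Set (Finset ι)) : Prop :=
  ∀ D ∈ F, ∀ D' ∈ F, D ⊆ D' ∨ D' ⊆ D ∨ Disjoint D D'

theorem Tree.cert {E : Type*} [NormedAddCommGroup E] [InnerProductSpace ℝ E] {z : E} {S : Set E}
    {L : ℝ} (h : Tree z S L) {ι : Type*} [Fintype ι] [DecidableEq ι] :
    ∀ t : ι → E, (∀ i, t i ∈ S) → ∃ F : Set (Finset ι), Laminar F ∧
      (∀ D ∈ F, ∀ i j, t i = t j → (i ∈ D ↔ j ∈ D)) ∧
      ∀ g : ι → E, (∀ D ∈ F, ‖∑ i ∈ D, g i‖ ≤ 1) → ∑ i, ⟪g i, t i - z⟫ ≤ L := by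
  classical
  induction h with
  | root =>
    intro t ht
    refine ⟨∅, ?_, ?_, ?_⟩
    · intro D hD
      exact absurd hD (notMem_empty D)
    · intro D hD
      exact absurd hD (notMem_empty D)
    · intro g _
      apply le_of_eq
      apply Finset.sum_eq_zero
      intro i _
      have : t i = z := ht i
      rw [this, sub_self, inner_zero_right]
  | @add S L p h hp y ih =>
    intro t ht
    let Dy : Finset ι := Finset.univ.filter fun i => t i = y
    have hDy : ∀ i, i ∈ Dy ↔ t i = y := fun i => by simp [Dy]
    let t' : ι → E := fun i => if t i = y then p else t i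
    have ht' : ∀ i, t' i ∈ S := by
      intro i
      by_cases hi : t i = y
      · simp only [t', hi, if_true]
        exact hp
      · simp only [t', hi, if_false]
        rcases ht i with h1 | h1
        · exact absurd h1 hi
        · exact h1
    obtain ⟨F, hF1, hF2, hF3⟩ := ih t' ht'
    have key : ∀ D ∈ F, Dy ⊆ D ∨ Disjoint Dy D := by
      intro D hD
      by_cases hne : ∃ i ∈ Dy, i ∈ D
      · obtain ⟨i, hi, hiD⟩ := hne
        left
        intro j hj
        refine (hF2 D hD i j ?_).1 hiD
        have e1 := (hDy i).1 hi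
        have e2 := (hDy j).1 hj
        simp [t', e1, e2]
      · right
        rw [Finset.disjoint_left]
        intro i hi hiD
        exact hne ⟨i, hi, hiD⟩
    refine ⟨insert Dy F, ?_, ?_, ?_⟩
    · intro D hD D' hD'
      rcases hD with rfl | hD <;> rcases hD' with rfl | hD'
      · exact Or.inl subset_rfl
      · rcases key D' hD' with h1 | h1
        · exact Or.inl h1
        · exact Or.inr (Or.inr h1)
      · rcases key D hD with h1 | h1
        · exact Or.inr (Or.inl h1)
        · exact Or.inr (Or.inr h1.symm)
      · exact hF1 D hD D' hD'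
    · intro D hD i j hij
      rcases hD with rfl | hD
      · rw [hDy, hDy, hij]
      · refine hF2 D hD i j ?_
        simp only [t', hij]
    · intro g hg
      have h1 := hF3 g fun D hD => hg D (mem_insert_of_mem _ hD)
      have h2 : ∑ i, ⟪g i, t i - z⟫ = ∑ i, ⟪g i, t' i - z⟫ + ∑ i ∈ Dy, ⟪g i, y - p⟫ := by
        rw [Finset.sum_filter, ← Finset.sum_add_distrib]
        refine Finset.sum_congr rfl fun i _ => ?_
        by_cases hi : t i = y
        · simp only [t', hi, if_true]
          rw [← inner_add_right]
          congr 1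
          abel
        · simp [t', hi]
      rw [h2, ← sum_inner]
      have h3 : ⟪∑ i ∈ Dy, g i, y - p⟫ ≤ dist p y := by
        refine (real_inner_le_norm _ _).trans ?_
        rw [dist_comm, dist_eq_norm]
        calc ‖∑ i ∈ Dy, g i‖ * ‖y - p‖ ≤ 1 * ‖y - p‖ :=
              mul_le_mul_of_nonneg_right (hg Dy (mem_insert _ _)) (norm_nonneg _)
          _ = ‖y - p‖ := one_mul _
      linarith

end Pool.Agent.T2H59.Steiner
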