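import Mathlib
import Pool.Agent.T2H59.Steiner.Net

/-!
# Finite trees in connected compact sets of finite length
-/

set_option autoImplicit false

open Set MeasureTheory Filter Topology
open scoped ENNReal NNReal RealInnerProductSpace

namespace Pool.Agent.T2H59.Steiner

variable {E : Type*} [MetricSpace E] [MeasurableSpace E] [BorelSpace E]

theorem exists_cover {K : Set E} (hKc : IsCompact K) (hfin : μH[1] K ≠ ∞) {η : ℝ} (hη : 0 < η) :
    ∃ (I : Finset ℕ) (U : ℕ → Set E) (d : ℕ → ℝ), (∀ i, IsOpen (U i)) ∧ K ⊆ ⋃ i ∈ I, U i ∧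
      (∀ i, ∀ x ∈ U i, ∀ y ∈ U i, dist x y ≤ d i) ∧ (∀ i, 0 ≤ d i ∧ d i ≤ η) ∧
      ∑ i ∈ I, d i ≤ (μH[1] K).toReal + η := by
  have hr : (0 : ℝ≥0∞) < ENNReal.ofReal (η / 2) := ENNReal.ofReal_pos.2 (by positivity)
  have h1 : (⨅ (t : ℕ → Set E) (_ : K ⊆ ⋃ n, t n) (_ : ∀ n, Metric.ediam (t n) ≤ ENNReal.ofReal (η / 2)),
      ∑' n, ⨆ _ : (t n).Nonempty, Metric.ediam (t n) ^ (1 : ℝ)) < μH[1] K + ENNReal.ofReal (η / 2) := by
    refine lt_of_le_of_lt ?_ (ENNReal.lt_add_right hfin hr.ne')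
    rw [Measure.hausdorffMeasure_apply]
    exact le_iSup₂_of_le (ENNReal.ofReal (η / 2)) hr le_rfl
  simp only [iInf_lt_iff] at h1
  obtain ⟨t, ht1, ht2, ht3⟩ := h1
  obtain ⟨e, he0, he1⟩ := ENNReal.exists_pos_sum_of_countable
    (ε := ENNReal.ofReal (η / 4)) (ENNReal.ofReal_pos.2 (by positivity)).ne' ℕ
  let U : ℕ → Set E := fun n => Metric.thickening (e n) (t n)
  have hU : ∀ n, IsOpen (U n) := fun n => Metric.isOpen_thickening
  have hcov : K ⊆ ⋃ n, U n := by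
    refine ht1.trans (iUnion_mono fun n => ?_)
    exact Metric.self_subset_thickening (by exact_mod_cast he0 n) _
  obtain ⟨I, hI⟩ := hKc.elim_finite_subcover U hU hcov
  have hd1 : ∀ n, Metric.ediam (U n) ≤ Metric.ediam (t n) + 2 * (e n : ℝ≥0∞) := fun n =>
    Metric.ediam_thickening_le (e n)
  have hen : ∀ n, (e n : ℝ≥0∞) ≤ ENNReal.ofReal (η / 4) := fun n => (ENNReal.le_tsum n).trans he1.le
  have hd2 : ∀ n, Metric.ediam (U n) ≤ ENNReal.ofReal η := by
    intro n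
    refine (hd1 n).trans ?_
    calc Metric.ediam (t n) + 2 * (e n : ℝ≥0∞)
        ≤ ENNReal.ofReal (η / 2) + 2 * ENNReal.ofReal (η / 4) :=
          add_le_add (ht2 n) (by gcongr; exact hen n)
      _ = ENNReal.ofReal η := by
          rw [show (2 : ℝ≥0∞) = ENNReal.ofReal 2 by simp, ← ENNReal.ofReal_mul (by norm_num),
            ← ENNReal.ofReal_add (by positivity) (by positivity)]
          congr 1
          ring
  have hd3 : ∀ n, Metric.ediam (U n) ≠ ∞ := fun n =>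
    ((hd2 n).trans_lt ENNReal.ofReal_lt_top).ne
  refine ⟨I, U, fun n => (Metric.ediam (U n)).toReal, hU, hI, ?_, ?_, ?_⟩
  · intro i x hx y hy
    rw [dist_edist]
    exact ENNReal.toReal_mono (hd3 i) (Metric.edist_le_ediam_of_mem hx hy)
  · intro i
    refine ⟨ENNReal.toReal_nonneg, ?_⟩
    exact ENNReal.toReal_le_of_le_ofReal hη.le (hd2 i)
  · rw [← ENNReal.toReal_sum fun i _ => hd3 i]
    have h2 : ∑ i ∈ I, Metric.ediam (U i) ≤ μH[1] K + ENNReal.ofReal η := by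
      calc ∑ i ∈ I, Metric.ediam (U i)
          ≤ ∑ i ∈ I, (Metric.ediam (t i) + 2 * (e i : ℝ≥0∞)) := Finset.sum_le_sum fun i _ => hd1 i
        _ ≤ ∑' i, (Metric.ediam (t i) + 2 * (e i : ℝ≥0∞)) := ENNReal.sum_le_tsum I
        _ = ∑' i, Metric.ediam (t i) + 2 * ∑' i, (e i : ℝ≥0∞) := by
            rw [ENNReal.tsum_add, ENNReal.tsum_mul_left]
        _ ≤ (μH[1] K + ENNReal.ofReal (η / 2)) + 2 * ENNReal.ofReal (η / 4) := by
            refine add_le_add (le_trans ?_ ht3.le) (by gcongr)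
            refine ENNReal.tsum_le_tsum fun i => ?_
            rcases (t i).eq_empty_or_nonempty with h | h
            · simp [h]
            · simp [h]
        _ = μH[1] K + ENNReal.ofReal η := by
            rw [add_assoc, show (2 : ℝ≥0∞) = ENNReal.ofReal 2 by simp,
              ← ENNReal.ofReal_mul (by norm_num), ← ENNReal.ofReal_add (by positivity) (by positivity)]
            congr 2
            ring
    calc (∑ i ∈ I, Metric.ediam (U i)).toReal
        ≤ (μH[1] K + ENNReal.ofReal η).toReal :=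
          ENNReal.toReal_mono (ENNReal.add_ne_top.2 ⟨hfin, ENNReal.ofReal_ne_top⟩) h2
      _ = (μH[1] K).toReal + η := by
          rw [ENNReal.toReal_add hfin ENNReal.ofReal_ne_top, ENNReal.toReal_ofReal hη.le]

omit [MeasurableSpace E] [BorelSpace E] in
/-- A rank function on the members of a finite open cover of a connected set. -/
theorem exists_rank {K : Set E} (hK : IsPreconnected K) {I : Finset ℕ} {U : ℕ → Set E}
    (hU : ∀ i, IsOpen (U i)) (hcov : K ⊆ ⋃ i ∈ I, U i) {z : E} (hz : z ∈ K) :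
    ∃ (r0 : ℕ) (R : Set ℕ) (ρ : ℕ → ℕ), r0 ∈ I ∧ z ∈ U r0 ∧ (∀ i ∈ R, i ∈ I) ∧
      (∀ x ∈ K, ∃ i ∈ R, x ∈ U i) ∧
      ∀ j ∈ R, j ≠ r0 → ∃ i ∈ R, ρ i < ρ j ∧ (K ∩ U i ∩ U j).Nonempty := by
  classical
  obtain ⟨r0, hr0, hzr⟩ : ∃ i ∈ I, z ∈ U i := by
    have := hcov hz
    simpa using this
  let J : ℕ → Set ℕ := fun n => Nat.rec {r0} (fun _ S => S ∪ {j | j ∈ I ∧ ∃ i ∈ S, (K ∩ U i ∩ U j).Nonempty}) n
  have hJ0 : J 0 = {r0} := rfl
  have hJs : ∀ n, J (n + 1) = J n ∪ {j | j ∈ I ∧ ∃ i ∈ J n, (K ∩ U i ∩ U j).Nonempty} := fun n => rfl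
  have hJI : ∀ n, ∀ i ∈ J n, i ∈ I := by
    intro n
    induction n with
    | zero => intro i hi; rw [hJ0, mem_singleton_iff] at hi; rw [hi]; exact hr0
    | succ n ih =>
      intro i hi
      rw [hJs] at hi
      rcases hi with h | h
      · exact ih i h
      · exact h.1
  let R : Set ℕ := ⋃ n, J n
  let ρ : ℕ → ℕ := fun i => sInf {n | i ∈ J n}
  have hρ : ∀ i ∈ R, i ∈ J (ρ i) := by
    intro i hi
    obtain ⟨n, hn⟩ := mem_iUnion.1 hi
    exact Nat.sInf_mem (s := {n | i ∈ J n}) ⟨n, hn⟩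
  have hρ' : ∀ i n, i ∈ J n → ρ i ≤ n := fun i n h => Nat.sInf_le (s := {n | i ∈ J n}) h
  refine ⟨r0, R, ρ, hr0, hzr, ?_, ?_, ?_⟩
  · intro i hi
    exact hJI _ i (hρ i hi)
  · -- connectedness
    intro x hx
    by_contra hcon
    push Not at hcon
    have hA : IsOpen (⋃ i ∈ R, U i) := isOpen_biUnion fun i _ => hU i
    have hB : IsOpen (⋃ i ∈ {i | i ∈ I ∧ i ∉ R}, U i) := isOpen_biUnion fun i _ => hU i
    obtain ⟨w, hwK, hwA, hwB⟩ := hK _ _ hA hB (by
      intro y hy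
      obtain ⟨i, hi, hyi⟩ : ∃ i ∈ I, y ∈ U i := by simpa using hcov hy
      by_cases hiR : i ∈ R
      · exact Or.inl (mem_biUnion hiR hyi)
      · exact Or.inr (mem_biUnion (show i ∈ {i | i ∈ I ∧ i ∉ R} from ⟨hi, hiR⟩) hyi))
      ⟨z, hz, mem_biUnion (show r0 ∈ R from mem_iUnion.2 ⟨0, rfl⟩) hzr⟩ (by
      obtain ⟨i, hi, hyi⟩ : ∃ i ∈ I, x ∈ U i := by simpa using hcov hx
      refine ⟨x, hx, mem_biUnion (show i ∈ {i | i ∈ I ∧ i ∉ R} from ⟨hi, fun h => hcon i h hyi⟩) hyi⟩)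
    simp only [mem_iUnion] at hwA hwB
    obtain ⟨i, hiR, hwi⟩ := hwA
    obtain ⟨j, ⟨hjI, hjR⟩, hwj⟩ := hwB
    apply hjR
    have h1 := hρ i hiR
    exact mem_iUnion.2 ⟨ρ i + 1, by rw [hJs]; exact Or.inr ⟨hjI, i, h1, w, ⟨hwK, hwi⟩, hwj⟩⟩
  · intro j hj hjr
    have h1 := hρ j hj
    rcases hn : ρ j with _ | n
    · rw [hn, hJ0, mem_singleton_iff] at h1
      exact absurd h1 hjr
    · rw [hn, hJs] at h1
      rcases h1 with h1 | h1
      · have := hρ' j n h1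
        omega
      · obtain ⟨_, i, hi, hne⟩ := h1
        exact ⟨i, mem_iUnion.2 ⟨n, hi⟩, by have := hρ' i n hi; omega, hne⟩

omit [MeasurableSpace E] [BorelSpace E] in
theorem grow {K : Set E} {I : Finset ℕ} {U : ℕ → Set E} {d : ℕ → ℝ} {η : ℝ}
    (hd : ∀ i, ∀ x ∈ U i, ∀ y ∈ U i, dist x y ≤ d i) (hd0 : ∀ i, 0 ≤ d i ∧ d i ≤ η)
    {r0 : ℕ} {R : Set ℕ} {ρ : ℕ → ℕ} (hRI : ∀ i ∈ R, i ∈ I)
    (hρ : ∀ j ∈ R, j ≠ r0 → ∃ i ∈ R, ρ i < ρ j ∧ (K ∩ U i ∩ U j).Nonempty) {z : E} :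
    ∀ (n : ℕ) (i : ℕ), i ∈ R → ρ i ≤ n → ∀ (S : Set E) (L : ℝ) (N : Finset ℕ) (c : ℝ),
      Tree z S L → r0 ∈ N → N ⊆ I → (∀ j ∈ N, ∃ p ∈ S, p ∈ U j) → L ≤ ∑ j ∈ N, d j + c → i ∉ N →
      ∃ (S' : Set E) (L' : ℝ) (N' : Finset ℕ), Tree z S' L' ∧ S ⊆ S' ∧ N ⊆ N' ∧ N' ⊆ I ∧
        (∀ j ∈ N', ∃ p ∈ S', p ∈ U j) ∧ (∀ j ∈ N', j ∉ N → ρ j < ρ i) ∧ (∃ p ∈ S', p ∈ U i) ∧
        L' ≤ ∑ j ∈ N', d j + c + η := by
  classical
  intro n
  induction n with
  | zero =>
    intro i hi hin S L N c hT hr hNI hN hL hiN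
    exfalso
    have hir : i ≠ r0 := fun h => hiN (h ▸ hr)
    obtain ⟨j, _, hj, _⟩ := hρ i hi hir
    omega
  | succ n ih =>
    intro i hi hin S L N c hT hr hNI hN hL hiN
    have hir : i ≠ r0 := fun h => hiN (h ▸ hr)
    obtain ⟨j, hjR, hj, w, ⟨hwK, hwj⟩, hwi⟩ := hρ i hi hir
    by_cases hjN : j ∈ N
    · obtain ⟨p, hpS, hpj⟩ := hN j hjN
      refine ⟨insert w S, L + dist p w, N, hT.add hpS w, subset_insert _ _, subset_rfl, hNI, ?_, ?_,
        ⟨w, mem_insert _ _, hwi⟩, ?_⟩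
      · intro k hk
        obtain ⟨q, hq, hqk⟩ := hN k hk
        exact ⟨q, mem_insert_of_mem _ hq, hqk⟩
      · intro k hk hk'
        exact absurd hk hk'
      · have h1 := hd j p hpj w hwj
        have h2 := (hd0 j).2
        linarith
    · obtain ⟨S', L', N', hT', hS', hN', hNI', h1, h2, ⟨p, hpS, hpj⟩, h3⟩ :=
        ih j hjR (by omega) S L N c hT hr hNI hN hL hjN
      have hjN' : j ∉ N' := fun h => absurd (h2 j h hjN) (lt_irrefl _)
      refine ⟨insert w S', L' + dist p w, insert j N', hT'.add hpS w,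
        hS'.trans (subset_insert _ _), hN'.trans (Finset.subset_insert _ _), ?_, ?_, ?_,
        ⟨w, mem_insert _ _, hwi⟩, ?_⟩
      · exact Finset.insert_subset (hRI j hjR) hNI'
      · intro k hk
        rcases Finset.mem_insert.1 hk with rfl | hk
        · exact ⟨w, mem_insert _ _, hwj⟩
        · obtain ⟨q, hq, hqk⟩ := h1 k hk
          exact ⟨q, mem_insert_of_mem _ hq, hqk⟩
      · intro k hk hkN
        rcases Finset.mem_insert.1 hk with rfl | hk
        · exact hj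
        · exact (h2 k hk hkN).trans hj
      · rw [Finset.sum_insert hjN']
        have h4 := hd j p hpj w hwj
        linarith

/-- A connected compact set of finite length contains, up to `δ`, a finite tree containing given
points. -/
theorem exists_tree {K : Set E} (hKc : IsCompact K) (hK : IsPreconnected K) (hfin : μH[1] K ≠ ∞)
    {z : E} (hz : z ∈ K) {n : ℕ} (t : Fin n → E) (ht : ∀ i, t i ∈ K) {δ : ℝ} (hδ : 0 < δ) :
    ∃ (S : Set E) (L : ℝ), Tree z S L ∧ (∀ i, t i ∈ S) ∧ L ≤ (μH[1] K).toReal + δ := by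
  classical
  set η : ℝ := δ / (n + 1) with hη
  have hη0 : 0 < η := by positivity
  obtain ⟨I, U, d, hU, hcov, hd, hd0, hsum⟩ := exists_cover hKc hfin hη0
  obtain ⟨r0, R, ρ, hr0, hzr, hRI, hRcov, hρ⟩ := exists_rank hK hU hcov hz
  have key : ∀ m : ℕ, m ≤ n → ∃ (S : Set E) (L : ℝ) (N : Finset ℕ), Tree z S L ∧ r0 ∈ N ∧ N ⊆ I ∧
      (∀ j ∈ N, ∃ p ∈ S, p ∈ U j) ∧ L ≤ ∑ j ∈ N, d j + m * η ∧ ∀ i : Fin n, (i : ℕ) < m → t i ∈ S := by
    intro m
    induction m with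
    | zero =>
      intro _
      refine ⟨{z}, 0, {r0}, Tree.root, Finset.mem_singleton_self _, ?_, ?_, ?_, ?_⟩
      · exact Finset.singleton_subset_iff.2 hr0
      · intro j hj
        rw [Finset.mem_singleton] at hj
        subst hj
        exact ⟨z, rfl, hzr⟩
      · have := (hd0 r0).1
        simpa using this
      · intro i hi
        omega
    | succ m ih =>
      intro hm
      obtain ⟨S, L, N, hT, hr, hNI, hN, hL, hS⟩ := ih (by omega)
      set x : E := t ⟨m, by omega⟩ with hx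
      obtain ⟨i, hiR, hxi⟩ := hRcov x (ht _)
      have hfinal : ∀ S' : Set E, S ⊆ S' → x ∈ S' → ∀ i : Fin n, (i : ℕ) < m + 1 → t i ∈ S' := by
        intro S' hS' hxS' i hi
        rcases Nat.lt_succ_iff_lt_or_eq.1 hi with h | h
        · exact hS' (hS i h)
        · have : i = ⟨m, by omega⟩ := Fin.ext h
          rw [this]
          exact hxS'
      by_cases hiN : i ∈ N
      · obtain ⟨p, hpS, hpi⟩ := hN i hiN
        refine ⟨insert x S, L + dist p x, N, hT.add hpS x, hr, hNI, ?_, ?_,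
          hfinal _ (subset_insert _ _) (mem_insert _ _)⟩
        · intro k hk
          obtain ⟨q, hq, hqk⟩ := hN k hk
          exact ⟨q, mem_insert_of_mem _ hq, hqk⟩
        · have h1 := hd i p hpi x hxi
          have h2 := (hd0 i).2
          push_cast
          linarith
      · obtain ⟨S', L', N', hT', hS', hN', hNI', h1, h2, ⟨p, hpS, hpi⟩, h3⟩ :=
          grow hd hd0 hRI hρ (ρ i) i hiR le_rfl S L N (m * η) hT hr hNI hN hL hiN
        have hiN' : i ∉ N' := fun h => absurd (h2 i h hiN) (lt_irrefl _)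
        refine ⟨insert x S', L' + dist p x, insert i N', hT'.add hpS x,
          Finset.mem_insert_of_mem (hN' hr), Finset.insert_subset (hRI i hiR) hNI', ?_, ?_,
          hfinal _ (hS'.trans (subset_insert _ _)) (mem_insert _ _)⟩
        · intro k hk
          rcases Finset.mem_insert.1 hk with rfl | hk
          · exact ⟨x, mem_insert _ _, hxi⟩
          · obtain ⟨q, hq, hqk⟩ := h1 k hk
            exact ⟨q, mem_insert_of_mem _ hq, hqk⟩
        · rw [Finset.sum_insert hiN']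
          have h4 := hd i p hpi x hxi
          push_cast
          linarith
  obtain ⟨S, L, N, hT, _, hNI, _, hL, hS⟩ := key n le_rfl
  refine ⟨S, L, hT, fun i => hS i i.2, ?_⟩
  have h1 : ∑ j ∈ N, d j ≤ ∑ j ∈ I, d j :=
    Finset.sum_le_sum_of_subset_of_nonneg hNI fun j _ _ => (hd0 j).1
  have h2 : (n : ℝ) * η + η = δ := by
    rw [hη]
    field_simp
  linarith

/-- Lower bound for the length of a connected compact set: `c` is a lower bound if for every laminar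
family of subsets of the set of the points `t i` there are vectors `g i` such that
`‖∑ i ∈ D, g i‖ ≤ 1` for all `D` in the family and `∑ ⟪g i, t i - z⟫ ≥ c`. -/
theorem lower_bound {E : Type*} [NormedAddCommGroup E] [InnerProductSpace ℝ E] [MeasurableSpace E]
    [BorelSpace E] {K : Set E} (hKc : IsCompact K) (hK : IsPreconnected K)
    {z : E} (hz : z ∈ K) {n : ℕ} (t : Fin n → E) (ht : ∀ i, t i ∈ K) {c : ℝ}
    (hc : ∀ F : Set (Finset (Fin n)), Laminar F → ∃ g : Fin n → E,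
      (∀ D ∈ F, ‖∑ i ∈ D, g i‖ ≤ 1) ∧ c ≤ ∑ i, ⟪g i, t i - z⟫) :
    ENNReal.ofReal c ≤ μH[1] K := by
  by_cases hfin : μH[1] K = ∞
  · rw [hfin]
    exact le_top
  rw [ENNReal.ofReal_le_iff_le_toReal hfin]
  apply le_of_forall_pos_le_add
  intro δ hδ
  obtain ⟨S, L, hT, hS, hL⟩ := exists_tree hKc hK hfin hz t ht hδ
  obtain ⟨F, hF1, -, hF2⟩ := hT.cert t hS
  obtain ⟨g, hg1, hg2⟩ := hc F hF1
  exact (hg2.trans (hF2 g hg1)).trans hL

end Pool.Agent.T2H59.Steiner
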