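import Mathlib
import Pool.Agent.T2H59.Steiner.Cover

/-!
# The trapezoid with two full Steiner trees: the calibrations
-/

set_option autoImplicit false

open Set MeasureTheory
open scoped ENNReal NNReal RealInnerProductSpace

namespace Pool.Agent.T2H59.Steiner

/-- the plane -/
abbrev E2 : Type := EuclideanSpace ℝ (Fin 2)

/-- the point with coordinates `a`, `b` -/
noncomputable def pt (a b : ℝ) : E2 := !₂[a, b]

@[simp] theorem pt_zero (a b : ℝ) : pt a b 0 = a := rfl
@[simp] theorem pt_one (a b : ℝ) : pt a b 1 = b := rfl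

theorem eq_pt (x : E2) : x = pt (x 0) (x 1) := by
  ext i
  fin_cases i <;> rfl

theorem ext_pt {x y : E2} (h0 : x 0 = y 0) (h1 : x 1 = y 1) : x = y := by
  ext i
  fin_cases i
  · exact h0
  · exact h1

theorem pt_add (a b c d : ℝ) : pt a b + pt c d = pt (a + c) (b + d) := by
  apply ext_pt <;> simp

theorem pt_sub (a b c d : ℝ) : pt a b - pt c d = pt (a - c) (b - d) := by
  apply ext_pt <;> simp

theorem inner_pt (x y : E2) : ⟪x, y⟫ = x 0 * y 0 + x 1 * y 1 := by
  rw [PiLp.inner_apply, Fin.sum_univ_two]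
  simp only [RCLike.inner_apply, conj_trivial]
  ring

theorem norm_sq_pt (x : E2) : ‖x‖ ^ 2 = x 0 ^ 2 + x 1 ^ 2 := by
  rw [← real_inner_self_eq_norm_sq, inner_pt]
  ring

theorem norm_le_one {x : E2} (h : x 0 ^ 2 + x 1 ^ 2 ≤ 1) : ‖x‖ ≤ 1 := by
  have h1 := norm_sq_pt x
  have h2 := norm_nonneg x
  nlinarith

theorem norm_eq_of {x : E2} {c : ℝ} (hc : 0 ≤ c) (h : x 0 ^ 2 + x 1 ^ 2 = c ^ 2) : ‖x‖ = c := by
  have h1 := norm_sq_pt x
  rw [h] at h1
  exact (pow_left_inj₀ (norm_nonneg x) hc two_ne_zero).1 h1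

/-- the square root of three -/
noncomputable def s : ℝ := √3

theorem s_sq : s * s = 3 := Real.mul_self_sqrt (by norm_num)

theorem s_pos : 0 < s := Real.sqrt_pos.2 (by norm_num)

theorem s_lb : 1.732 < s := by
  have h1 := s_sq
  have h2 := s_pos
  nlinarith

theorem s_ub : s < 1.7321 := by
  have h1 := s_sq
  have h2 := s_pos
  nlinarith

/-- the four corners of the trapezoid -/
noncomputable def a : Fin 4 → E2 :=
  ![pt (3 * s - 6) (3 - 2 * s), pt (6 - 3 * s) (3 - 2 * s), pt (-s) (9 - 4 * s), pt s (9 - 4 * s)]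

/-- the second Steiner point -/
noncomputable def q : E2 := pt 0 (8 - 4 * s)

theorem cases16 (D : Finset (Fin 4)) : D = ∅ ∨ D = {0} ∨ D = {1} ∨ D = {2} ∨ D = {3} ∨
    D = {0, 1} ∨ D = {0, 2} ∨ D = {0, 3} ∨ D = {1, 2} ∨ D = {1, 3} ∨ D = {2, 3} ∨
    D = {0, 1, 2} ∨ D = {0, 1, 3} ∨ D = {0, 2, 3} ∨ D = {1, 2, 3} ∨ D = {0, 1, 2, 3} := by
  revert D
  decide

/-- the outward unit vectors of the tree through the Steiner points `0` and `q` -/
noncomputable def gT : Fin 4 → E2 :=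
  ![pt (-s / 2) (-1 / 2), pt (s / 2) (-1 / 2), pt (-s / 2) (1 / 2), pt (s / 2) (1 / 2)]

/-- the outward unit vectors of the other tree -/
noncomputable def gS : Fin 4 → E2 :=
  ![pt (-1 / 2) (-s / 2), pt (1 / 2) (-s / 2), pt (-1 / 2) (s / 2), pt (1 / 2) (s / 2)]

theorem gT_norm (D : Finset (Fin 4)) (h1 : D ≠ {0, 2}) (h2 : D ≠ {1, 3}) :
    ‖∑ i ∈ D, gT i‖ ≤ 1 := by
  have hs := s_sq
  apply norm_le_one
  rcases cases16 D with h | h | h | h | h | h | h | h | h | h | h | h | h | h | h | h <;> subst h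
  · simp
  all_goals first | exact absurd rfl h1 | exact absurd rfl h2 | skip
  all_goals simp [gT, Finset.sum_insert]
  all_goals nlinarith

theorem gS_norm (D : Finset (Fin 4)) (h1 : D ≠ {0, 1}) (h2 : D ≠ {2, 3}) :
    ‖∑ i ∈ D, gS i‖ ≤ 1 := by
  have hs := s_sq
  apply norm_le_one
  rcases cases16 D with h | h | h | h | h | h | h | h | h | h | h | h | h | h | h | h <;> subst h
  · simp
  all_goals first | exact absurd rfl h1 | exact absurd rfl h2 | skip
  all_goals simp [gS, Finset.sum_insert]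
  all_goals nlinarith

end Pool.Agent.T2H59.Steiner
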