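import Mathlib
import Pool.Agent.T2H59.Steiner.Plane

/-!
# The trapezoid with two full Steiner trees: the lower bounds
-/

set_option autoImplicit false

open Set MeasureTheory
open scoped ENNReal NNReal RealInnerProductSpace

namespace Pool.Agent.T2H59.Steiner

noncomputable def gA : Fin 4 → E2 :=
  ![pt (-0.3) (-0.95), pt 0.67 (-0.74), pt (-0.67) 0.74, pt 0.87 0.49]

noncomputable def gB : Fin 4 → E2 :=
  ![pt (-0.23) (-0.97), pt 0.44 (-0.89), pt (-0.72) 0.69, pt 0.86 0.5]

noncomputable def gC : Fin 4 → E2 :=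
  ![pt (-0.22) (-0.97), pt 0.22 (-0.97), pt (-0.73) 0.68, pt 0.73 0.68]

noncomputable def gA' : Fin 4 → E2 :=
  ![pt (-0.67) (-0.74), pt 0.3 (-0.95), pt (-0.87) 0.49, pt 0.67 0.74]

noncomputable def gB' : Fin 4 → E2 :=
  ![pt (-0.44) (-0.89), pt 0.23 (-0.97), pt (-0.86) 0.5, pt 0.72 0.69]

theorem lam_ne {F : Set (Finset (Fin 4))} (hF : Laminar F) {D D' : Finset (Fin 4)} (hD : D ∈ F)
    (h : ¬ (D ⊆ D' ∨ D' ⊆ D ∨ Disjoint D D')) : D' ∉ F := fun hD' => h (hF D hD D' hD')

theorem gA_norm {F : Set (Finset (Fin 4))} (hF : Laminar F) (h1 : {0, 2} ∈ F)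
    (h2 : {0, 1, 2} ∈ F) : ∀ D ∈ F, ‖∑ i ∈ D, gA i‖ ≤ 1 := by
  intro D hD
  apply norm_le_one
  rcases cases16 D with h | h | h | h | h | h | h | h | h | h | h | h | h | h | h | h <;> subst h
  · simp
  all_goals first
    | exact absurd hD (lam_ne hF h1 (by decide))
    | exact absurd hD (lam_ne hF h2 (by decide))
    | skip
  all_goals simp [gA, Finset.sum_insert]
  all_goals norm_num

theorem gB_norm {F : Set (Finset (Fin 4))} (hF : Laminar F) (h1 : {0, 2} ∈ F)
    (h2 : {0, 2, 3} ∈ F) : ∀ D ∈ F, ‖∑ i ∈ D, gB i‖ ≤ 1 := by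
  intro D hD
  apply norm_le_one
  rcases cases16 D with h | h | h | h | h | h | h | h | h | h | h | h | h | h | h | h <;> subst h
  · simp
  all_goals first
    | exact absurd hD (lam_ne hF h1 (by decide))
    | exact absurd hD (lam_ne hF h2 (by decide))
    | skip
  all_goals simp [gB, Finset.sum_insert]
  all_goals norm_num

theorem gC_norm {F : Set (Finset (Fin 4))} (hF : Laminar F) (h1 : {0, 2} ∈ F)
    (h2 : {0, 1, 2} ∉ F) (h3 : {0, 2, 3} ∉ F) : ∀ D ∈ F, ‖∑ i ∈ D, gC i‖ ≤ 1 := by
  intro D hD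
  apply norm_le_one
  rcases cases16 D with h | h | h | h | h | h | h | h | h | h | h | h | h | h | h | h <;> subst h
  · simp
  all_goals first
    | exact absurd hD (lam_ne hF h1 (by decide))
    | exact absurd hD h2
    | exact absurd hD h3
    | skip
  all_goals simp [gC, Finset.sum_insert]
  all_goals norm_num

theorem gA'_norm {F : Set (Finset (Fin 4))} (hF : Laminar F) (h1 : {1, 3} ∈ F)
    (h2 : {0, 1, 3} ∈ F) : ∀ D ∈ F, ‖∑ i ∈ D, gA' i‖ ≤ 1 := by
  intro D hD
  apply norm_le_one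
  rcases cases16 D with h | h | h | h | h | h | h | h | h | h | h | h | h | h | h | h <;> subst h
  · simp
  all_goals first
    | exact absurd hD (lam_ne hF h1 (by decide))
    | exact absurd hD (lam_ne hF h2 (by decide))
    | skip
  all_goals simp [gA', Finset.sum_insert]
  all_goals norm_num

theorem gB'_norm {F : Set (Finset (Fin 4))} (hF : Laminar F) (h1 : {1, 3} ∈ F)
    (h2 : {1, 2, 3} ∈ F) : ∀ D ∈ F, ‖∑ i ∈ D, gB' i‖ ≤ 1 := by
  intro D hD
  apply norm_le_one
  rcases cases16 D with h | h | h | h | h | h | h | h | h | h | h | h | h | h | h | h <;> subst h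
  · simp
  all_goals first
    | exact absurd hD (lam_ne hF h1 (by decide))
    | exact absurd hD (lam_ne hF h2 (by decide))
    | skip
  all_goals simp [gB', Finset.sum_insert]
  all_goals norm_num

theorem gC'_norm {F : Set (Finset (Fin 4))} (hF : Laminar F) (h1 : {1, 3} ∈ F)
    (h2 : {0, 1, 3} ∉ F) (h3 : {1, 2, 3} ∉ F) : ∀ D ∈ F, ‖∑ i ∈ D, gC i‖ ≤ 1 := by
  intro D hD
  apply norm_le_one
  rcases cases16 D with h | h | h | h | h | h | h | h | h | h | h | h | h | h | h | h <;> subst h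
  · simp
  all_goals first
    | exact absurd hD (lam_ne hF h1 (by decide))
    | exact absurd hD h2
    | exact absurd hD h3
    | skip
  all_goals simp [gC, Finset.sum_insert]
  all_goals norm_num

theorem gT_val : ∑ i, ⟪gT i, a i⟫ = 4 * s := by
  have hs := s_sq
  simp only [Fin.sum_univ_four, inner_pt]
  simp [gT, a]
  nlinarith

theorem gS_val : ∑ i, ⟪gS i, a i⟫ = 4 * s := by
  have hs := s_sq
  simp only [Fin.sum_univ_four, inner_pt]
  simp [gS, a]
  nlinarith

/-- the radius -/
noncomputable def r : ℝ := 1 / 100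

theorem gA_val : 4 * s + 9 * r ≤ ∑ i, ⟪gA i, a i - q⟫ := by
  have h1 := s_lb
  have h2 := s_ub
  simp only [Fin.sum_univ_four, inner_pt]
  simp [gA, a, q, r]
  nlinarith

theorem gB_val : 4 * s + 9 * r ≤ ∑ i, ⟪gB i, a i - q⟫ := by
  have h1 := s_lb
  have h2 := s_ub
  simp only [Fin.sum_univ_four, inner_pt]
  simp [gB, a, q, r]
  nlinarith

theorem gC_val : 4 * s + 9 * r ≤ ∑ i, ⟪gC i, a i - q⟫ := by
  have h1 := s_lb
  have h2 := s_ub
  simp only [Fin.sum_univ_four, inner_pt]
  simp [gC, a, q, r]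
  nlinarith

theorem gA'_val : 4 * s + 9 * r ≤ ∑ i, ⟪gA' i, a i - q⟫ := by
  have h1 := s_lb
  have h2 := s_ub
  simp only [Fin.sum_univ_four, inner_pt]
  simp [gA', a, q, r]
  nlinarith

theorem gB'_val : 4 * s + 9 * r ≤ ∑ i, ⟪gB' i, a i - q⟫ := by
  have h1 := s_lb
  have h2 := s_ub
  simp only [Fin.sum_univ_four, inner_pt]
  simp [gB', a, q, r]
  nlinarith

theorem gT_unit (i : Fin 4) : ‖gT i‖ = 1 := by
  have hs := s_sq
  apply norm_eq_of zero_le_one
  fin_cases i <;> simp [gT] <;> nlinarith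

theorem gT_sum : ∑ i, gT i = 0 := by
  apply ext_pt <;> simp [Fin.sum_univ_four, gT] <;> ring

theorem gS_sum : ∑ i, gS i = 0 := by
  apply ext_pt <;> simp [Fin.sum_univ_four, gS] <;> ring

/-- the centres of the first four balls -/
noncomputable def m (i : Fin 4) : E2 := a i + r • gT i

theorem r_pos : 0 < r := by unfold r; norm_num

/-- change of the points -/
theorem perturb {g : Fin 4 → E2} (hg : ∀ i, ‖g i‖ ≤ 1) (hg' : ‖∑ i, g i‖ ≤ 1) {b : Fin 4 → E2}
    {z : E2} (hb : ∀ i, dist (b i) (m i) ≤ r) (hz : dist z q ≤ r)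
    (hv : 4 * s + 9 * r ≤ ∑ i, ⟪g i, a i - q⟫) : 4 * s ≤ ∑ i, ⟪g i, b i - z⟫ := by
  have h1 : ∀ i, ⟪g i, b i - z⟫ = ⟪g i, a i - q⟫ + ⟪g i, b i - a i⟫ - ⟪g i, z - q⟫ := by
    intro i
    rw [← inner_add_right, ← inner_sub_right]
    congr 1
    abel
  have h2 : ∑ i, ⟪g i, b i - z⟫ = ∑ i, ⟪g i, a i - q⟫ + ∑ i, ⟪g i, b i - a i⟫ -
      ⟪∑ i, g i, z - q⟫ := by
    rw [sum_inner, ← Finset.sum_add_distrib, ← Finset.sum_sub_distrib]
    exact Finset.sum_congr rfl fun i _ => h1 i
  have h3 : ∀ i, -(2 * r) ≤ ⟪g i, b i - a i⟫ := by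
    intro i
    have h4 : ‖b i - a i‖ ≤ 2 * r := by
      have e1 : b i - a i = (b i - m i) + r • gT i := by
        unfold m
        abel
      rw [e1]
      refine (norm_add_le _ _).trans ?_
      have e2 := hb i
      rw [dist_eq_norm] at e2
      rw [norm_smul, gT_unit, Real.norm_of_nonneg r_pos.le]
      linarith
    have h5 := abs_le.1 (abs_real_inner_le_norm (g i) (b i - a i))
    have h6 : ‖g i‖ * ‖b i - a i‖ ≤ 1 * (2 * r) :=
      mul_le_mul (hg i) h4 (norm_nonneg _) zero_le_one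
    linarith [h5.1]
  have h7 : ⟪∑ i, g i, z - q⟫ ≤ r := by
    refine (real_inner_le_norm _ _).trans ?_
    rw [dist_eq_norm] at hz
    calc ‖∑ i, g i‖ * ‖z - q‖ ≤ 1 * r := mul_le_mul hg' hz (norm_nonneg _) zero_le_one
      _ = r := one_mul r
  have h8 : -(8 * r) ≤ ∑ i, ⟪g i, b i - a i⟫ := by
    rw [Fin.sum_univ_four]
    linarith [h3 0, h3 1, h3 2, h3 3]
  linarith

theorem gT_perturb {b : Fin 4 → E2} {z : E2} (hb : ∀ i, dist (b i) (m i) ≤ r) :
    4 * s ≤ ∑ i, ⟪gT i, b i - z⟫ := by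
  have h1 : ∀ i, ⟪gT i, b i - z⟫ = ⟪gT i, a i⟫ + (r + ⟪gT i, b i - m i⟫) - ⟪gT i, z⟫ := by
    intro i
    have e : r = ⟪gT i, r • gT i⟫ := by
      rw [inner_smul_right, real_inner_self_eq_norm_sq, gT_unit]
      ring
    nth_rewrite 1 [e]
    rw [← inner_add_right, ← inner_add_right, ← inner_sub_right]
    congr 1
    unfold m
    abel
  have h2 : ∑ i, ⟪gT i, b i - z⟫ = ∑ i, ⟪gT i, a i⟫ + ∑ i, (r + ⟪gT i, b i - m i⟫) -
      ⟪∑ i, gT i, z⟫ := by
    rw [sum_inner, ← Finset.sum_add_distrib, ← Finset.sum_sub_distrib]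
    exact Finset.sum_congr rfl fun i _ => h1 i
  have h3 : 0 ≤ ∑ i, (r + ⟪gT i, b i - m i⟫) := by
    apply Finset.sum_nonneg
    intro i _
    have h5 := abs_le.1 (abs_real_inner_le_norm (gT i) (b i - m i))
    have e2 := hb i
    rw [dist_eq_norm] at e2
    rw [gT_unit, one_mul] at h5
    linarith [h5.1]
  rw [h2, gT_sum, inner_zero_left, gT_val]
  linarith

/-- every connected compact set which meets the five balls has length at least `4 s` -/
theorem bound_ball {W : Set E2} (hWc : IsCompact W) (hW : IsPreconnected W) {b : Fin 4 → E2}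
    {z : E2} (hbW : ∀ i, b i ∈ W) (hzW : z ∈ W) (hb : ∀ i, dist (b i) (m i) ≤ r)
    (hz : dist z q ≤ r) : ENNReal.ofReal (4 * s) ≤ μH[1] W := by
  refine lower_bound hWc hW hzW b hbW fun F hF => ?_
  by_cases h1 : ({0, 2} : Finset (Fin 4)) ∈ F
  · by_cases h2 : ({0, 1, 2} : Finset (Fin 4)) ∈ F
    · refine ⟨gA, gA_norm hF h1 h2, perturb ?_ ?_ hb hz gA_val⟩
      · intro i
        apply norm_le_one
        fin_cases i <;> simp [gA] <;> norm_num
      · apply norm_le_one
        simp [Fin.sum_univ_four, gA]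
        norm_num
    · by_cases h3 : ({0, 2, 3} : Finset (Fin 4)) ∈ F
      · refine ⟨gB, gB_norm hF h1 h3, perturb ?_ ?_ hb hz gB_val⟩
        · intro i
          apply norm_le_one
          fin_cases i <;> simp [gB] <;> norm_num
        · apply norm_le_one
          simp [Fin.sum_univ_four, gB]
          norm_num
      · refine ⟨gC, gC_norm hF h1 h2 h3, perturb ?_ ?_ hb hz gC_val⟩
        · intro i
          apply norm_le_one
          fin_cases i <;> simp [gC] <;> norm_num
        · apply norm_le_one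
          simp [Fin.sum_univ_four, gC]
          norm_num
  · by_cases h1' : ({1, 3} : Finset (Fin 4)) ∈ F
    · by_cases h2 : ({0, 1, 3} : Finset (Fin 4)) ∈ F
      · refine ⟨gA', gA'_norm hF h1' h2, perturb ?_ ?_ hb hz gA'_val⟩
        · intro i
          apply norm_le_one
          fin_cases i <;> simp [gA'] <;> norm_num
        · apply norm_le_one
          simp [Fin.sum_univ_four, gA']
          norm_num
      · by_cases h3 : ({1, 2, 3} : Finset (Fin 4)) ∈ F
        · refine ⟨gB', gB'_norm hF h1' h3, perturb ?_ ?_ hb hz gB'_val⟩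
          · intro i
            apply norm_le_one
            fin_cases i <;> simp [gB'] <;> norm_num
          · apply norm_le_one
            simp [Fin.sum_univ_four, gB']
            norm_num
        · refine ⟨gC, gC'_norm hF h1' h2 h3, perturb ?_ ?_ hb hz gC_val⟩
          · intro i
            apply norm_le_one
            fin_cases i <;> simp [gC] <;> norm_num
          · apply norm_le_one
            simp [Fin.sum_univ_four, gC]
            norm_num
    · refine ⟨gT, fun D hD => gT_norm D ?_ ?_, gT_perturb hb⟩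
      · rintro rfl
        exact h1 hD
      · rintro rfl
        exact h1' hD

/-- every connected compact set which contains the four points has length at least `4 s` -/
theorem bound_four {W : Set E2} (hWc : IsCompact W) (hW : IsPreconnected W)
    (haW : ∀ i, a i ∈ W) : ENNReal.ofReal (4 * s) ≤ μH[1] W := by
  refine lower_bound hWc hW (haW 0) a haW fun F hF => ?_
  by_cases h : ({0, 2} : Finset (Fin 4)) ∈ F ∨ ({1, 3} : Finset (Fin 4)) ∈ F
  · refine ⟨gS, fun D hD => gS_norm D ?_ ?_, ?_⟩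
    · rintro rfl
      rcases h with h | h
      · exact lam_ne hF h (by decide) hD
      · exact lam_ne hF h (by decide) hD
    · rintro rfl
      rcases h with h | h
      · exact lam_ne hF h (by decide) hD
      · exact lam_ne hF h (by decide) hD
    · apply le_of_eq
      simp only [inner_sub_right]
      rw [Finset.sum_sub_distrib, ← sum_inner, gS_sum, inner_zero_left, gS_val, sub_zero]
  · refine ⟨gT, fun D hD => gT_norm D ?_ ?_, ?_⟩
    · rintro rfl
      exact h (Or.inl hD)
    · rintro rfl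
      exact h (Or.inr hD)
    · apply le_of_eq
      simp only [inner_sub_right]
      rw [Finset.sum_sub_distrib, ← sum_inner, gT_sum, inner_zero_left, gT_val, sub_zero]

end Pool.Agent.T2H59.Steiner
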