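import Mathlib
import Pool.Agent.T2H59.Steiner.Bound

/-!
# The trapezoid with two full Steiner trees: the two trees
-/

set_option autoImplicit false

open Set MeasureTheory
open scoped ENNReal NNReal RealInnerProductSpace

namespace Pool.Agent.T2H59.Steiner

/-- the first Steiner point (the origin) -/
noncomputable def p : E2 := pt 0 0
/-- the Steiner points of the other tree -/
noncomputable def u : E2 := pt (2 * s - 4) 0
noncomputable def v : E2 := pt (4 - 2 * s) 0

/-- the tree with the Steiner points `p` and `q` -/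
noncomputable def TT : Set E2 :=
  segment ℝ p (a 0) ∪ segment ℝ p (a 1) ∪ segment ℝ p q ∪ segment ℝ q (a 2) ∪ segment ℝ q (a 3)

/-- the tree with the Steiner points `u` and `v` -/
noncomputable def SS : Set E2 :=
  segment ℝ u v ∪ segment ℝ u (a 0) ∪ segment ℝ u (a 2) ∪ segment ℝ v (a 1) ∪ segment ℝ v (a 3)

theorem isCompact_seg (x y : E2) : IsCompact (segment ℝ x y) := by
  rw [segment_eq_image_lineMap]
  exact isCompact_Icc.image (AffineMap.lineMap_continuous)

theorem isConnected_seg (x y : E2) : IsConnected (segment ℝ x y) :=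
  (convex_segment x y).isConnected ⟨x, left_mem_segment ℝ x y⟩

theorem isCompact_TT : IsCompact TT :=
  ((((isCompact_seg _ _).union (isCompact_seg _ _)).union (isCompact_seg _ _)).union
    (isCompact_seg _ _)).union (isCompact_seg _ _)

theorem isCompact_SS : IsCompact SS :=
  ((((isCompact_seg _ _).union (isCompact_seg _ _)).union (isCompact_seg _ _)).union
    (isCompact_seg _ _)).union (isCompact_seg _ _)

theorem isConnected_TT : IsConnected TT := by
  have h1 := (isConnected_seg p (a 0)).union ⟨p, left_mem_segment ℝ _ _, left_mem_segment ℝ _ _⟩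
    (isConnected_seg p (a 1))
  have h2 := h1.union ⟨p, Or.inl (left_mem_segment ℝ _ _), left_mem_segment ℝ _ _⟩
    (isConnected_seg p q)
  have h3 := h2.union ⟨q, Or.inr (right_mem_segment ℝ _ _), left_mem_segment ℝ _ _⟩
    (isConnected_seg q (a 2))
  exact h3.union ⟨q, Or.inr (left_mem_segment ℝ _ _), left_mem_segment ℝ _ _⟩
    (isConnected_seg q (a 3))

theorem isConnected_SS : IsConnected SS := by
  have h1 := (isConnected_seg u v).union ⟨u, left_mem_segment ℝ _ _, left_mem_segment ℝ _ _⟩
    (isConnected_seg u (a 0))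
  have h2 := h1.union ⟨u, Or.inl (left_mem_segment ℝ _ _), left_mem_segment ℝ _ _⟩
    (isConnected_seg u (a 2))
  have h3 := h2.union ⟨v, Or.inl (Or.inl (right_mem_segment ℝ _ _)), left_mem_segment ℝ _ _⟩
    (isConnected_seg v (a 1))
  exact h3.union ⟨v, Or.inr (left_mem_segment ℝ _ _), left_mem_segment ℝ _ _⟩
    (isConnected_seg v (a 3))

theorem a_mem_TT (i : Fin 4) : a i ∈ TT := by
  fin_cases i
  · exact Or.inl (Or.inl (Or.inl (Or.inl (right_mem_segment ℝ _ _))))
  · exact Or.inl (Or.inl (Or.inl (Or.inr (right_mem_segment ℝ _ _))))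
  · exact Or.inl (Or.inr (right_mem_segment ℝ _ _))
  · exact Or.inr (right_mem_segment ℝ _ _)

theorem p_mem_TT : p ∈ TT := Or.inl (Or.inl (Or.inl (Or.inl (left_mem_segment ℝ _ _))))

theorem q_mem_TT : q ∈ TT := Or.inr (left_mem_segment ℝ _ _)

theorem a_mem_SS (i : Fin 4) : a i ∈ SS := by
  fin_cases i
  · exact Or.inl (Or.inl (Or.inl (Or.inr (right_mem_segment ℝ _ _))))
  · exact Or.inl (Or.inr (right_mem_segment ℝ _ _))
  · exact Or.inl (Or.inl (Or.inr (right_mem_segment ℝ _ _)))
  · exact Or.inr (right_mem_segment ℝ _ _)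

theorem p_mem_SS : p ∈ SS := by
  refine Or.inl (Or.inl (Or.inl (Or.inl ?_)))
  refine ⟨1 / 2, 1 / 2, by norm_num, by norm_num, by norm_num, ?_⟩
  apply ext_pt
  · simp [u, v, p]
    ring
  · simp [u, v, p]

theorem u_mem_SS : u ∈ SS := Or.inl (Or.inl (Or.inl (Or.inl (left_mem_segment ℝ _ _))))

theorem edist_of {x y : E2} {c : ℝ} (hc : 0 ≤ c) (h : (x 0 - y 0) ^ 2 + (x 1 - y 1) ^ 2 = c ^ 2) :
    edist x y = ENNReal.ofReal c := by
  rw [edist_dist, dist_eq_norm]
  congr 1
  exact norm_eq_of hc (by simpa using h)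

theorem length_TT : μH[1] TT ≤ ENNReal.ofReal (4 * s) := by
  have hs := s_sq
  have h1 := s_lb
  have h2 := s_ub
  have e1 : edist p (a 0) = ENNReal.ofReal (4 * s - 6) :=
    edist_of (by linarith) (by simp [p, a]; nlinarith)
  have e2 : edist p (a 1) = ENNReal.ofReal (4 * s - 6) :=
    edist_of (by linarith) (by simp [p, a]; nlinarith)
  have e3 : edist p q = ENNReal.ofReal (8 - 4 * s) :=
    edist_of (by linarith) (by simp [p, q]; ring)
  have e4 : edist q (a 2) = ENNReal.ofReal 2 :=
    edist_of (by norm_num) (by simp [q, a]; nlinarith)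
  have e5 : edist q (a 3) = ENNReal.ofReal 2 :=
    edist_of (by norm_num) (by simp [q, a]; nlinarith)
  calc μH[1] TT ≤ μH[1] (segment ℝ p (a 0)) + μH[1] (segment ℝ p (a 1)) + μH[1] (segment ℝ p q) +
        μH[1] (segment ℝ q (a 2)) + μH[1] (segment ℝ q (a 3)) := by
        refine (measure_union_le _ _).trans (add_le_add ?_ le_rfl)
        refine (measure_union_le _ _).trans (add_le_add ?_ le_rfl)
        refine (measure_union_le _ _).trans (add_le_add ?_ le_rfl)
        exact measure_union_le _ _
    _ = ENNReal.ofReal (4 * s) := by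
        simp only [hausdorffMeasure_segment, e1, e2, e3, e4, e5]
        rw [← ENNReal.ofReal_add (by linarith) (by linarith),
          ← ENNReal.ofReal_add (by linarith) (by linarith),
          ← ENNReal.ofReal_add (by linarith) (by linarith),
          ← ENNReal.ofReal_add (by linarith) (by linarith)]
        congr 1
        ring

theorem length_SS : μH[1] SS ≤ ENNReal.ofReal (4 * s) := by
  have hs := s_sq
  have h1 := s_lb
  have h2 := s_ub
  have e1 : edist u v = ENNReal.ofReal (8 - 4 * s) :=
    edist_of (by linarith) (by simp [u, v]; nlinarith)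
  have e2 : edist u (a 0) = ENNReal.ofReal (4 - 2 * s) :=
    edist_of (by linarith) (by simp [u, a]; nlinarith)
  have e3 : edist u (a 2) = ENNReal.ofReal (6 * s - 8) :=
    edist_of (by linarith) (by simp [u, a]; nlinarith)
  have e4 : edist v (a 1) = ENNReal.ofReal (4 - 2 * s) :=
    edist_of (by linarith) (by simp [v, a]; nlinarith)
  have e5 : edist v (a 3) = ENNReal.ofReal (6 * s - 8) :=
    edist_of (by linarith) (by simp [v, a]; nlinarith)
  calc μH[1] SS ≤ μH[1] (segment ℝ u v) + μH[1] (segment ℝ u (a 0)) + μH[1] (segment ℝ u (a 2)) +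
        μH[1] (segment ℝ v (a 1)) + μH[1] (segment ℝ v (a 3)) := by
        refine (measure_union_le _ _).trans (add_le_add ?_ le_rfl)
        refine (measure_union_le _ _).trans (add_le_add ?_ le_rfl)
        refine (measure_union_le _ _).trans (add_le_add ?_ le_rfl)
        exact measure_union_le _ _
    _ = ENNReal.ofReal (4 * s) := by
        simp only [hausdorffMeasure_segment, e1, e2, e3, e4, e5]
        rw [← ENNReal.ofReal_add (by linarith) (by linarith),
          ← ENNReal.ofReal_add (by linarith) (by linarith),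
          ← ENNReal.ofReal_add (by linarith) (by linarith),
          ← ENNReal.ofReal_add (by linarith) (by linarith)]
        congr 1
        ring

/-! ### The position of the points of `TT` -/

theorem seg_coord {x y w : E2} (hw : w ∈ segment ℝ x y) :
    ∃ t : ℝ, 0 ≤ t ∧ t ≤ 1 ∧ w 0 = x 0 + t * (y 0 - x 0) ∧ w 1 = x 1 + t * (y 1 - x 1) := by
  obtain ⟨α, β, hα, hβ, hαβ, rfl⟩ := hw
  refine ⟨β, hβ, by linarith, ?_, ?_⟩
  · have : α = 1 - β := by linarith
    simp [this]
    ring
  · have : α = 1 - β := by linarith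
    simp [this]
    ring

/-- a linear function with a strict maximum at a point of `TT` -/
theorem lin_seg {x y w c : E2} (α β : ℝ) (hw : w ∈ segment ℝ x y)
    (hx : α * x 0 + β * x 1 < α * c 0 + β * c 1)
    (hy : y = c ∨ α * y 0 + β * y 1 < α * c 0 + β * c 1) :
    w = c ∨ α * w 0 + β * w 1 < α * c 0 + β * c 1 := by
  obtain ⟨t, ht0, ht1, h0, h1⟩ := seg_coord hw
  rcases hy with rfl | hy
  · rcases ht1.lt_or_eq with h | h
    · right
      rw [h0, h1]
      nlinarith
    · left
      subst h
      apply ext_pt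
      · rw [h0]; ring
      · rw [h1]; ring
  · right
    rw [h0, h1]
    rcases ht0.lt_or_eq with h | h
    · nlinarith
    · subst h
      nlinarith

theorem TT_coord {w : E2} (hw : w ∈ TT) :
    (w 1 < 0 → s * w 1 = w 0 ∨ s * w 1 = -w 0) ∧ (w 1 = 0 → w 0 = 0) ∧
      (0 < w 1 → w 1 < 8 - 4 * s → w 0 = 0) := by
  have hs := s_sq
  have h1 := s_lb
  have h2 := s_ub
  rcases hw with (((hw | hw) | hw) | hw) | hw
  · obtain ⟨t, ht0, ht1, h0, h1'⟩ := seg_coord hw
    simp only [p, a, Matrix.cons_val_zero, pt_zero, pt_one, zero_add, sub_zero] at h0 h1'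
    have e : s * w 1 = w 0 := by
      rw [h0, h1']
      nlinarith
    refine ⟨fun _ => Or.inl e, fun h => by rw [← e, h, mul_zero], fun h => ?_⟩
    rw [h1'] at h
    nlinarith
  · obtain ⟨t, ht0, ht1, h0, h1'⟩ := seg_coord hw
    simp only [p, a, Matrix.cons_val_one, Matrix.cons_val_zero, pt_zero, pt_one, zero_add,
      sub_zero] at h0 h1'
    have e : s * w 1 = - w 0 := by
      rw [h0, h1']
      nlinarith
    refine ⟨fun _ => Or.inr e, fun h => ?_, fun h => ?_⟩
    · rw [h, mul_zero] at e
      linarith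
    · rw [h1'] at h
      nlinarith
  · obtain ⟨t, ht0, ht1, h0, h1'⟩ := seg_coord hw
    simp only [p, q, pt_zero, pt_one, zero_add, sub_zero, mul_zero] at h0 h1'
    refine ⟨fun h => ?_, fun _ => h0, fun _ _ => h0⟩
    rw [h1'] at h
    nlinarith
  · obtain ⟨t, ht0, ht1, h0, h1'⟩ := seg_coord hw
    have e1 : w 1 = 8 - 4 * s + t := by
      rw [h1']
      simp [q, a]
      ring
    refine ⟨fun h => ?_, fun h => ?_, fun _ h => ?_⟩ <;> linarith
  · obtain ⟨t, ht0, ht1, h0, h1'⟩ := seg_coord hw
    have e1 : w 1 = 8 - 4 * s + t := by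
      rw [h1']
      simp [q, a]
      ring
    refine ⟨fun h => ?_, fun h => ?_, fun _ h => ?_⟩ <;> linarith

/-- no linear segment in `TT` has a corner in its interior -/
theorem a_corner (i : Fin 4) : ∃ α β : ℝ, ∀ w ∈ TT, w = a i ∨
    α * w 0 + β * w 1 < α * (a i) 0 + β * (a i) 1 := by
  have hs := s_sq
  have h1 := s_lb
  have h2 := s_ub
  fin_cases i
  · refine ⟨-1, -2, ?_⟩
    rintro w ((((hw | hw) | hw) | hw) | hw)
    · exact lin_seg _ _ hw (by simp [p, a]; linarith) (Or.inl rfl)
    · exact lin_seg _ _ hw (by simp [p, a]; linarith) (Or.inr (by simp [a]; linarith))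
    · exact lin_seg _ _ hw (by simp [p, a]; linarith) (Or.inr (by simp [a, q]; linarith))
    · exact lin_seg _ _ hw (by simp [q, a]; linarith) (Or.inr (by simp [a]; linarith))
    · exact lin_seg _ _ hw (by simp [q, a]; linarith) (Or.inr (by simp [a]; linarith))
  · refine ⟨1, -2, ?_⟩
    rintro w ((((hw | hw) | hw) | hw) | hw)
    · exact lin_seg _ _ hw (by simp [p, a]; linarith) (Or.inr (by simp [a]; linarith))
    · exact lin_seg _ _ hw (by simp [p, a]; linarith) (Or.inl rfl)
    · exact lin_seg _ _ hw (by simp [p, a]; linarith) (Or.inr (by simp [a, q]; linarith))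
    · exact lin_seg _ _ hw (by simp [q, a]; linarith) (Or.inr (by simp [a]; linarith))
    · exact lin_seg _ _ hw (by simp [q, a]; linarith) (Or.inr (by simp [a]; linarith))
  · refine ⟨-1, 1, ?_⟩
    rintro w ((((hw | hw) | hw) | hw) | hw)
    · exact lin_seg _ _ hw (by simp [p, a]; linarith) (Or.inr (by simp [a]; linarith))
    · exact lin_seg _ _ hw (by simp [p, a]; linarith) (Or.inr (by simp [a]; linarith))
    · exact lin_seg _ _ hw (by simp [p, a]; linarith) (Or.inr (by simp [a, q]; linarith))
    · exact lin_seg _ _ hw (by simp [q, a]; linarith) (Or.inl rfl)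
    · exact lin_seg _ _ hw (by simp [q, a]; linarith) (Or.inr (by simp [a]; linarith))
  · refine ⟨1, 1, ?_⟩
    rintro w ((((hw | hw) | hw) | hw) | hw)
    · exact lin_seg _ _ hw (by simp [p, a]; linarith) (Or.inr (by simp [a]; linarith))
    · exact lin_seg _ _ hw (by simp [p, a]; linarith) (Or.inr (by simp [a]; linarith))
    · exact lin_seg _ _ hw (by simp [p, a]; linarith) (Or.inr (by simp [a, q]; linarith))
    · exact lin_seg _ _ hw (by simp [q, a]; linarith) (Or.inr (by simp [a]; linarith))
    · exact lin_seg _ _ hw (by simp [q, a]; linarith) (Or.inl rfl)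

theorem not_corner (i : Fin 4) {x y : E2} (hxy : x ≠ y) (hsub : segment ℝ x y ⊆ TT)
    (h : a i ∈ openSegment ℝ x y) : False := by
  obtain ⟨α, β, hab⟩ := a_corner i
  obtain ⟨c, d, hc, hd, hcd, he⟩ := h
  have h0 : (a i) 0 = c * x 0 + d * y 0 := by rw [← he]; simp
  have h1 : (a i) 1 = c * x 1 + d * y 1 := by rw [← he]; simp
  have hx := hab x (hsub (left_mem_segment ℝ _ _))
  have hy := hab y (hsub (right_mem_segment ℝ _ _))
  have hx' : α * x 0 + β * x 1 ≤ α * (a i) 0 + β * (a i) 1 := by
    rcases hx with h | h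
    · rw [h]
    · exact h.le
  have hy' : α * y 0 + β * y 1 ≤ α * (a i) 0 + β * (a i) 1 := by
    rcases hy with h | h
    · rw [h]
    · exact h.le
  have key : α * (a i) 0 + β * (a i) 1 = c * (α * x 0 + β * x 1) + d * (α * y 0 + β * y 1) := by
    nth_rewrite 1 [h0]
    nth_rewrite 1 [h1]
    ring
  have hP : c * (α * (a i) 0 + β * (a i) 1) + d * (α * (a i) 0 + β * (a i) 1) =
      α * (a i) 0 + β * (a i) 1 := by rw [← add_mul, hcd, one_mul]
  rcases hx with h | h
  · rcases hy with h' | h'
    · exact hxy (h.trans h'.symm)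
    · linarith [mul_lt_mul_of_pos_left h' hd, mul_le_mul_of_nonneg_left hx' hc.le]
  · linarith [mul_lt_mul_of_pos_left h hc, mul_le_mul_of_nonneg_left hy' hd.le]

/-- no linear segment in `TT` has the point `p` in its interior -/
theorem not_branch {x y : E2} (hxy : x ≠ y) (hsub : segment ℝ x y ⊆ TT)
    (h : p ∈ openSegment ℝ x y) : False := by
  have hs0 := s_pos
  have hsu := s_ub
  -- the case `x 1 < 0`
  have key : ∀ x y : E2, segment ℝ x y ⊆ TT → p ∈ openSegment ℝ x y → x 1 < 0 → False := by
    intro x y hsub h hx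
    obtain ⟨c, d, hc, hd, hcd, he⟩ := h
    have h0 : c * x 0 + d * y 0 = 0 := by
      have := congrArg (fun w : E2 => w 0) he
      simpa [p] using this
    have h1 : c * x 1 + d * y 1 = 0 := by
      have := congrArg (fun w : E2 => w 1) he
      simpa [p] using this
    have hy : 0 < y 1 := by
      by_contra hcon
      push Not at hcon
      nlinarith
    -- a point near `p`
    obtain ⟨e, he0, he1, he2⟩ : ∃ e : ℝ, 0 < e ∧ e ≤ 1 ∧ e * y 1 < 8 - 4 * s := by
      refine ⟨min 1 ((8 - 4 * s) / (2 * y 1)), ?_, min_le_left _ _, ?_⟩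
      · refine lt_min one_pos (div_pos (by linarith) (by linarith))
      · calc min 1 ((8 - 4 * s) / (2 * y 1)) * y 1 ≤ (8 - 4 * s) / (2 * y 1) * y 1 :=
            mul_le_mul_of_nonneg_right (min_le_right _ _) hy.le
          _ = (8 - 4 * s) / 2 := by field_simp
          _ < 8 - 4 * s := by linarith
    have hw : pt (e * y 0) (e * y 1) ∈ TT := by
      apply hsub
      refine ⟨(1 - e) * c, (1 - e) * d + e, mul_nonneg (by linarith) hc.le,
        add_nonneg (mul_nonneg (by linarith) hd.le) he0.le, ?_, ?_⟩
      · have : (1 - e) * (c + d) = 1 - e := by rw [hcd, mul_one]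
        linarith
      · apply ext_pt
        · simp
          linear_combination (1 - e) * h0
        · simp
          linear_combination (1 - e) * h1
    have h3 := (TT_coord hw).2.2 (by simpa using mul_pos he0 hy) (by simpa using he2)
    have h4 : y 0 = 0 := by
      have h5 : e * y 0 = 0 := by simpa using h3
      rcases mul_eq_zero.1 h5 with h | h
      · exact absurd h he0.ne'
      · exact h
    have h6 : x 0 = 0 := by
      rw [h4, mul_zero, add_zero] at h0
      rcases mul_eq_zero.1 h0 with h | h
      · exact absurd h hc.ne'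
      · exact h
    rcases (TT_coord (hsub (left_mem_segment ℝ _ _))).1 hx with h | h
    · rw [h6] at h
      rcases mul_eq_zero.1 h with h | h
      · exact hs0.ne' h
      · exact hx.ne h
    · rw [h6, neg_zero] at h
      rcases mul_eq_zero.1 h with h | h
      · exact hs0.ne' h
      · exact hx.ne h
  rcases lt_trichotomy (x 1) 0 with hx | hx | hx
  · exact key x y hsub h hx
  · have hx0 := (TT_coord (hsub (left_mem_segment ℝ _ _))).2.1 hx
    obtain ⟨c, d, hc, hd, hcd, he⟩ := h
    have h0 : c * x 0 + d * y 0 = 0 := by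
      have := congrArg (fun w : E2 => w 0) he
      simpa [p] using this
    have h1 : c * x 1 + d * y 1 = 0 := by
      have := congrArg (fun w : E2 => w 1) he
      simpa [p] using this
    rw [hx0, mul_zero, zero_add] at h0
    rw [hx, mul_zero, zero_add] at h1
    apply hxy
    apply ext_pt
    · rcases mul_eq_zero.1 h0 with h | h
      · exact absurd h hd.ne'
      · rw [hx0, h]
    · rcases mul_eq_zero.1 h1 with h | h
      · exact absurd h hd.ne'
      · rw [hx, h]
  · have hy : y 1 < 0 := by
      obtain ⟨c, d, hc, hd, hcd, he⟩ := h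
      have h1 : c * x 1 + d * y 1 = 0 := by
        have := congrArg (fun w : E2 => w 1) he
        simpa [p] using this
      by_contra hcon
      push Not at hcon
      nlinarith [mul_pos hc hx, mul_nonneg hd.le hcon]
    refine key y x ?_ ?_ hy
    · rw [segment_symm]
      exact hsub
    · rw [openSegment_symm]
      exact h

end Pool.Agent.T2H59.Steiner
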